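import Pool.Agent.Helper69.TPF.St1

/-!
# Project TPF, module CNT: the coefficients of `nE` count lifts
-/

set_option autoImplicit false

open scoped commutatorElement

namespace Pool.Agent.Helper42.TPF

open Pool.Agent.Helper69.TPF

/-- Splitting off the first two values. -/
def splitE (E : Type) (g : ℕ) : (Fin (g + 1) × Bool → E) ≃ (E × E) × (Fin g × Bool → E) where
  toFun y := ((y (0, false), y (0, true)), fun i => y (i.1.succ, i.2))
  invFun z := fun i => Fin.cases (if i.2 = true then z.1.2 else z.1.1) (fun j => z.2 (j, i.2)) i.1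
  left_inv y := by
    funext i
    obtain ⟨i, b⟩ := i
    refine Fin.cases ?_ (fun j => ?_) i
    · cases b <;> simp
    · simp
  right_inv z := by
    obtain ⟨⟨a, b⟩, c⟩ := z
    simp

theorem Rel_succ {E : Type} [Group E] {g : ℕ} (y : Fin (g + 1) × Bool → E) :
    Rel y = ⁅y (0, false), y (0, true)⁆ * Rel (fun i : Fin g × Bool => y (i.1.succ, i.2)) := by
  unfold Pool.Agent.Helper69.TPF.Rel
  rw [List.finRange_succ, List.map_cons, List.prod_cons, List.map_map]
  rfl

theorem nE_succ {E G : Type} [Group E] [Group G] [Fintype E] (π : E →* G) {g : ℕ}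
    (t : Fin (g + 1) × Bool → G) :
    nE π t = Cab π (t (0, false)) (t (0, true)) * nE π (fun i : Fin g × Bool => t (i.1.succ, i.2)) := by
  unfold nE
  rw [List.finRange_succ, List.map_cons, List.prod_cons, List.map_map]
  rfl

theorem cond_succ {E G : Type} [Group E] [Group G] (π : E →* G) {g : ℕ}
    (t : Fin (g + 1) × Bool → G) (y : Fin (g + 1) × Bool → E) :
    (∀ i, π (y i) = t i) ↔ (π (y (0, false)) = t (0, false) ∧ π (y (0, true)) = t (0, true)) ∧
      ∀ i : Fin g × Bool, π (y (i.1.succ, i.2)) = t (i.1.succ, i.2) := by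
  constructor
  · exact fun h => ⟨⟨h _, h _⟩, fun i => h _⟩
  · rintro ⟨⟨h1, h2⟩, h3⟩ ⟨i, b⟩
    refine Fin.cases ?_ (fun j => ?_) i
    · cases b
      · exact h1
      · exact h2
    · exact h3 (j, b)

open Classical in
theorem nE_eq {E G : Type} [Group E] [Group G] [Fintype E] (π : E →* G) (g : ℕ) :
    ∀ t : Fin g × Bool → G, nE π t = ∑ y : Fin g × Bool → E,
      if (∀ i, π (y i) = t i) then (MonoidAlgebra.single (Rel y) 1 : AA E) else 0 := by
  induction g with
  | zero =>
    intro t
    have h1 : (Finset.univ : Finset (Fin 0 × Bool → E)) = {fun i => i.1.elim0} := by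
      ext y
      simp only [Finset.mem_univ, Finset.mem_singleton, true_iff]
      funext i
      exact i.1.elim0
    rw [h1, Finset.sum_singleton, if_pos (fun i => i.1.elim0)]
    simp [nE, Pool.Agent.Helper69.TPF.Rel, MonoidAlgebra.one_def]
  | succ g ih =>
    intro t
    rw [nE_succ, ih]
    rw [← (splitE E g).symm.sum_comp, Fintype.sum_prod_type, Fintype.sum_prod_type]
    unfold Cab
    rw [Finset.sum_mul]
    refine Finset.sum_congr rfl fun a _ => ?_
    rw [Finset.sum_mul]
    refine Finset.sum_congr rfl fun b _ => ?_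
    rw [Finset.mul_sum]
    refine Finset.sum_congr rfl fun c _ => ?_
    have hA : (splitE E g).symm ((a, b), c) (0, false) = a := by simp [splitE]
    have hB : (splitE E g).symm ((a, b), c) (0, true) = b := by simp [splitE]
    have hC : (fun i : Fin g × Bool => (splitE E g).symm ((a, b), c) (i.1.succ, i.2)) = c := by
      funext i
      simp [splitE]
    have hC' : ∀ i : Fin g × Bool, (splitE E g).symm ((a, b), c) (i.1.succ, i.2) = c i :=
      fun i => congrFun hC i
    have hR : Rel ((splitE E g).symm ((a, b), c)) = ⁅a, b⁆ * Rel c := by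
      rw [Rel_succ, hA, hB, hC]
    have hcond : (∀ i, π ((splitE E g).symm ((a, b), c) i) = t i) ↔
        (π a = t (0, false) ∧ π b = t (0, true)) ∧ ∀ i : Fin g × Bool, π (c i) = t (i.1.succ, i.2) := by
      rw [cond_succ, hA, hB]
      simp only [hC']
    rw [hR]
    by_cases h1 : π a = t (0, false) ∧ π b = t (0, true)
    · by_cases h2 : ∀ i : Fin g × Bool, π (c i) = t (i.1.succ, i.2)
      · rw [if_pos h1, if_pos h2, if_pos (hcond.2 ⟨h1, h2⟩), MonoidAlgebra.single_mul_single, one_mul]
      · rw [if_neg h2, if_neg (fun h => h2 (hcond.1 h).2), mul_zero]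
    · rw [if_neg h1, if_neg (fun h => h1 (hcond.1 h).1), zero_mul]

theorem cCNT : St_CNT := by
  classical
  intro E G _ _ _ π g t x
  rw [nE_eq, MonoidAlgebra.coeff_sum, Finsupp.finsetSum_apply]
  have h1 : ∀ y : Fin g × Bool → E,
      (if (∀ i, π (y i) = t i) then (MonoidAlgebra.single (Rel y) 1 : AA E) else 0).coeff x =
        if (∀ i, π (y i) = t i) ∧ Rel y = x then (1 : ℂ) else 0 := by
    intro y
    by_cases h : ∀ i, π (y i) = t i
    · rw [if_pos h, MonoidAlgebra.coeff_single, Finsupp.single_apply]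
      by_cases h2 : Rel y = x
      · rw [if_pos h2, if_pos ⟨h, h2⟩]
      · rw [if_neg h2, if_neg (fun h3 => h2 h3.2)]
    · rw [if_neg h, if_neg (fun h3 => h h3.1)]
      simp
  rw [Finset.sum_congr rfl (fun y _ => h1 y), Finset.sum_boole, Nat.card_eq_fintype_card,
    Fintype.card_subtype]

end Pool.Agent.Helper42.TPF
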