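import Pool.Agent.Helper69.TPF.St2

/-!
# Project TPF, module RLF: the quotient of level `m` is relatively free
-/

set_option autoImplicit false

namespace Pool.Agent.Helper42.TPF

open Pool.Agent.Helper69.TPF

theorem lmap_mk {G H : Type} [Group G] [Group H] (f : G →* H) (n : ℕ) (x : G) :
    lmap f n (QuotientGroup.mk x) = QuotientGroup.mk (f x) := rfl

theorem cRLF (lfi : St_LFI) : St_RLF := by
  intro g m y hy v hv
  have hfin : Finite (Lq (FreeGroup (Fin g)) m) := lfi (FreeGroup (Fin g)) m
  have hsurj : Function.Surjective (lmap (FreeGroup.lift y) m) := by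
    intro z
    obtain ⟨x, rfl⟩ := QuotientGroup.mk_surjective z
    have h1 := hy.le
      (K := ((lmap (FreeGroup.lift y) m).range).comap (QuotientGroup.mk' (lev (FreeGroup (Fin g)) m)))
      (fun i => by
        rw [Subgroup.mem_comap]
        refine ⟨QuotientGroup.mk (FreeGroup.of i), ?_⟩
        rw [lmap_mk, FreeGroup.lift_apply_of]
        rfl)
      (fun w hw => by
        rw [Subgroup.mem_comap]
        have h2 : QuotientGroup.mk' (lev (FreeGroup (Fin g)) m) w = 1 := (QuotientGroup.eq_one_iff w).2 hw
        rw [h2]
        exact Subgroup.one_mem _) x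
    exact h1
  have hinj : Function.Injective (lmap (FreeGroup.lift y) m) := Finite.injective_iff_surjective.2 hsurj
  have h3 : lmap (FreeGroup.lift y) m (QuotientGroup.mk v) = lmap (FreeGroup.lift y) m 1 := by
    rw [lmap_mk, map_one]
    exact (QuotientGroup.eq_one_iff _).2 hv
  exact (QuotientGroup.eq_one_iff v).1 (hinj h3)

end Pool.Agent.Helper42.TPF
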